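import Pool.Agent.Helper39.Uct.Goals2

set_option linter.unusedVariables false

open scoped ComplexOrder

namespace Pool.Agent.Helper48.Uct

open Pool.Agent.Helper39.Uct Pool.Agent.Helper39.Uct.Fib

variable {Q : Type} [Group Q] {B : Type} [NonUnitalCStarAlgebra B] {G : Fib Q B}

/-- `y` vanishes at `φ`. -/
def NN (φ : G.Pt) (y : B) : Prop := φ (star y * y) = 0

theorem NN.cs (P : PF1 G) {φ : G.Pt} {y : B} (h : NN φ y) (a : B) : φ (star a * y) = 0 := by
  have h1 := P.cs φ a y
  have h2 : φ (star y * y) = 0 := h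
  rw [h2] at h1
  simp only [Complex.zero_re, mul_zero] at h1
  have h3 : ‖φ (star a * y)‖ ^ 2 = 0 := le_antisymm h1 (sq_nonneg _)
  exact norm_eq_zero.1 (pow_eq_zero_iff (two_ne_zero) |>.1 h3)

theorem NN.cs' (P : PF1 G) {φ : G.Pt} {y : B} (h : NN φ y) (a : B) : φ (star y * a) = 0 := by
  have h1 := P.herm φ (star a * y)
  rw [h.cs P a, star_mul, star_star, star_zero] at h1
  exact h1

theorem NN.add (P : PF1 G) {φ : G.Pt} {x y : B} (hx : NN φ x) (hy : NN φ y) : NN φ (x + y) := by
  unfold NN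
  rw [star_add, add_mul, mul_add, mul_add, map_add, map_add, map_add]
  have h1 : φ (star x * x) = 0 := hx
  have h2 : φ (star y * y) = 0 := hy
  rw [h1, h2, hy.cs P x, hx.cs P y]
  simp

theorem NN.smul {φ : G.Pt} {x : B} (hx : NN φ x) (c : ℂ) : NN φ (c • x) := by
  unfold NN
  rw [star_smul, smul_mul_smul_comm, map_smul]
  have h1 : φ (star x * x) = 0 := hx
  rw [h1, smul_zero]

theorem NN.neg {φ : G.Pt} {x : B} (hx : NN φ x) : NN φ (-x) := by
  unfold NN
  rw [star_neg, neg_mul_neg]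
  exact hx

theorem NN.sub (P : PF1 G) {φ : G.Pt} {x y : B} (hx : NN φ x) (hy : NN φ y) : NN φ (x - y) := by
  rw [sub_eq_add_neg]
  exact hx.add P hy.neg

theorem NN.of_smul {φ : G.Pt} {x : B} {c : ℂ} (hc : c ≠ 0) (hx : NN φ (c • x)) : NN φ x := by
  have := hx.smul c⁻¹
  rwa [smul_smul, inv_mul_cancel₀ hc, one_smul] at this

theorem NN.left (P : PF1 G) {φ : G.Pt} {x : B} (hx : NN φ x) (a : B) : NN φ (a * x) :=
  P.left φ a x hx

theorem mem_of_eq {p q : Q} (h : p = q) {x : B} (hx : x ∈ G.fib p) : x ∈ G.fib q := h ▸ hx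

theorem ss_mem {p : Q} {x y : B} (hx : x ∈ G.fib p) (hy : y ∈ G.fib p) : star x * y ∈ G.fib 1 :=
  mem_of_eq (inv_mul_cancel p) (G.mul_mem _ _ _ _ (G.star_mem _ _ hx) hy)

theorem scs_mem {p : Q} {x y c : B} (hx : x ∈ G.fib p) (hc : c ∈ G.fib 1) (hy : y ∈ G.fib p) :
    star x * c * y ∈ G.fib 1 :=
  mem_of_eq (by group) (G.mul_mem _ _ _ _ (G.mul_mem _ _ _ _ (G.star_mem _ _ hx) hc) hy)

theorem NN.right {φ : G.Pt} {p l : Q} {n a : B} (hn : NN φ n) (hnp : n ∈ G.fib p)
    (hl : l ∈ G.St φ) (ha : a ∈ G.fib l) : NN φ (n * a) := by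
  unfold NN
  have h1 := hl.2 a ha (star n * n) (ss_mem hnp hnp)
  have h2 : φ (star n * n) = 0 := hn
  rw [h2, zero_mul] at h1
  rw [← h1]
  congr 1
  rw [star_mul]
  simp only [mul_assoc]

theorem star_mem_one {c : B} (hc : c ∈ G.fib 1) : star c ∈ G.fib 1 :=
  mem_of_eq inv_one (G.star_mem _ _ hc)

theorem mul_mem_one {c d : B} (hc : c ∈ G.fib 1) (hd : d ∈ G.fib 1) : c * d ∈ G.fib 1 :=
  mem_of_eq (mul_one 1) (G.mul_mem _ _ _ _ hc hd)

/-- left multiplication by the unit fibre -/
theorem NN.cb (P : PF1 G) {φ : G.Pt} {q : Q} (hq : q ∈ G.St φ) {c b : B} (hc : c ∈ G.fib 1)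
    (hb : b ∈ G.fib q) : NN φ (c * b - φ c • b) := by
  unfold NN
  have e1 : φ (star b * (star c * c) * b) = φ (star c) * φ c * φ (star b * b) := by
    rw [hq.2 b hb _ (mul_mem_one (star_mem_one hc) hc), φ.mult _ (star_mem_one hc) _ hc]
  have e2 : φ (star b * star c * b) = φ (star c) * φ (star b * b) :=
    hq.2 b hb _ (star_mem_one hc)
  have e3 : φ (star b * c * b) = φ c * φ (star b * b) := hq.2 b hb _ hc
  have e4 : φ (star c) = star (φ c) := P.herm φ c
  have e5 : star (c * b - φ c • b) * (c * b - φ c • b) = star b * (star c * c) * b -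
      φ c • (star b * star c * b) - star (φ c) • (star b * c * b) +
      (φ c * star (φ c)) • (star b * b) := by
    rw [star_sub, star_mul, star_smul]
    simp only [sub_mul, mul_sub, smul_mul_assoc, mul_smul_comm, mul_assoc, smul_smul, smul_sub]
    abel
  rw [e5, map_add, map_sub, map_sub, map_smul, map_smul, map_smul, e1, e2, e3, e4]
  simp only [smul_eq_mul]
  ring

/-- right multiplication by the unit fibre -/
theorem NN.bc (P : PF1 G) {φ : G.Pt} {q : Q} {c b : B} (hc : c ∈ G.fib 1)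
    (hb : b ∈ G.fib q) : NN φ (b * c - φ c • b) := by
  unfold NN
  have hbb := ss_mem hb hb
  have e1 : φ (star c * (star b * b) * c) = φ (star c) * φ (star b * b) * φ c := by
    rw [φ.mult _ (mul_mem_one (star_mem_one hc) hbb) _ hc, φ.mult _ (star_mem_one hc) _ hbb]
  have e2 : φ (star c * (star b * b)) = φ (star c) * φ (star b * b) :=
    φ.mult _ (star_mem_one hc) _ hbb
  have e3 : φ (star b * b * c) = φ (star b * b) * φ c := φ.mult _ hbb _ hc
  have e4 : φ (star c) = star (φ c) := P.herm φ c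
  have e5 : star (b * c - φ c • b) * (b * c - φ c • b) = star c * (star b * b) * c -
      φ c • (star c * (star b * b)) - star (φ c) • (star b * b * c) +
      (φ c * star (φ c)) • (star b * b) := by
    rw [star_sub, star_mul, star_smul]
    simp only [sub_mul, mul_sub, smul_mul_assoc, mul_smul_comm, mul_assoc, smul_smul, smul_sub]
    abel
  rw [e5, map_add, map_sub, map_sub, map_smul, map_smul, map_smul, e1, e2, e3, e4]
  simp only [smul_eq_mul]
  ring

/-- two elements of a fibre are proportional at `φ` -/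
theorem exists_prop (P : PF1 G) {φ : G.Pt} {p : Q} {x y : B} (hx : x ∈ G.fib p)
    (hy : y ∈ G.fib p) (hne : φ (star y * y) ≠ 0) : ∃ l : ℂ, NN φ (x - l • y) := by
  refine ⟨φ (star y * x) / φ (star y * y), ?_⟩
  unfold NN
  set l := φ (star y * x) / φ (star y * y) with hl
  have e1 := P.oned φ p y hy x hx
  have e2 : φ (star x * y) = star (φ (star y * x)) := by
    rw [← P.herm, star_mul, star_star]
  have e3 : star (φ (star y * y)) = φ (star y * y) := by
    rw [← P.herm, star_mul, star_star]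
  have e5 : star (x - l • y) * (x - l • y) = star x * x - l • (star x * y) -
      star l • (star y * x) + (l * star l) • (star y * y) := by
    rw [star_sub, star_smul]
    simp only [sub_mul, mul_sub, smul_mul_assoc, mul_smul_comm, mul_assoc, smul_smul, smul_sub]
    abel
  rw [e5, map_add, map_sub, map_sub, map_smul, map_smul, map_smul]
  simp only [smul_eq_mul]
  have h1 : l * φ (star y * y) = φ (star y * x) := by
    rw [hl]
    field_simp
  have h2 : l * φ (star x * y) = φ (star x * x) := by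
    rw [hl]
    field_simp
    rw [e1]
  rw [h2, mul_comm l (star l), mul_assoc (star l), h1]
  ring

/-- values at proportional elements -/
theorem NN.val (P : PF1 G) {φ : G.Pt} {x y : B} {l : ℂ} (h : NN φ (x - l • y)) (a : B) :
    φ (star x * a * x) = star l * l * φ (star y * a * y) := by
  have h1 : φ (star x * a * x) = l * φ (star x * a * y) := by
    have h2 := h.cs P (star a * x)
    rw [star_mul, star_star, mul_sub, mul_smul_comm, map_sub, map_smul, sub_eq_zero] at h2
    rw [h2, smul_eq_mul]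
  have h3 : φ (star x * a * y) = star l * φ (star y * a * y) := by
    have h2 := h.cs' P (a * y)
    rw [star_sub, star_smul, sub_mul, smul_mul_assoc, map_sub, map_smul, sub_eq_zero] at h2
    rw [mul_assoc, h2, smul_eq_mul, mul_assoc]
  rw [h1, h3]
  ring

theorem NN.val' (P : PF1 G) {φ : G.Pt} {x y : B} {l : ℂ} (h : NN φ (x - l • y)) :
    φ (star x * x) = star l * l * φ (star y * y) := by
  have h1 : φ (star x * x) = l * φ (star x * y) := by
    have h2 := h.cs P x
    rw [mul_sub, mul_smul_comm, map_sub, map_smul, sub_eq_zero] at h2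
    rw [h2, smul_eq_mul]
  have h3 : φ (star x * y) = star l * φ (star y * y) := by
    have h2 := h.cs' P y
    rw [star_sub, star_smul, sub_mul, smul_mul_assoc, map_sub, map_smul, sub_eq_zero] at h2
    rw [h2, smul_eq_mul]
  rw [h1, h3]
  ring

/-- to be in the stabiliser it is enough to check one element -/
theorem st_of (P : PF1 G) {φ : G.Pt} {p : Q} {y : B} (hy : y ∈ G.fib p)
    (hne : φ (star y * y) ≠ 0) (h : ∀ c ∈ G.fib 1, φ (star y * c * y) = φ c * φ (star y * y)) :
    p ∈ G.St φ := by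
  refine ⟨⟨y, hy, hne⟩, fun x hx c hc => ?_⟩
  obtain ⟨l, hl⟩ := exists_prop P hx hy hne
  rw [hl.val P, hl.val' P, h c hc]
  ring

theorem st_one (P : PF1 G) (φ : G.Pt) : (1 : Q) ∈ G.St φ := by
  obtain ⟨c, hc, hne⟩ := φ.nz
  refine ⟨⟨c, hc, ?_⟩, fun b hb c hc => ?_⟩
  · rw [φ.mult _ (star_mem_one hc) _ hc]
    refine mul_ne_zero ?_ hne
    have h1 : φ (star c) = star (φ c) := P.herm φ c
    show φ (star c) ≠ 0
    rw [h1]
    exact star_ne_zero.2 hne
  · have h1 : φ (star b * c * b) = φ (star b) * φ c * φ b := by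
      rw [φ.mult _ (mul_mem_one (star_mem_one hb) hc) _ hb, φ.mult _ (star_mem_one hb) _ hc]
    have h2 : φ (star b * b) = φ (star b) * φ b := φ.mult _ (star_mem_one hb) _ hb
    rw [h1, h2]
    ring

theorem prod_ne (P : PF1 G) {φ : G.Pt} {q q' : Q} (hq' : q' ∈ G.St φ)
    {b b' : B} (hb : b ∈ G.fib q) (hb' : b' ∈ G.fib q') (hne : φ (star b * b) ≠ 0)
    (hne' : φ (star b' * b') ≠ 0) :
    φ (star (b * b') * (b * b')) = φ (star b * b) * φ (star b' * b') := by
  rw [← hq'.2 b' hb' _ (ss_mem hb hb)]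
  congr 1
  rw [star_mul]
  simp only [mul_assoc]

theorem st_mul (P : PF1 G) (φ : G.Pt) (q q' : Q) (hq : q ∈ G.St φ) (hq' : q' ∈ G.St φ) :
    q * q' ∈ G.St φ := by
  obtain ⟨b, hb, hne⟩ := hq.1
  obtain ⟨b', hb', hne'⟩ := hq'.1
  have h0 := prod_ne P hq' hb hb' hne hne'
  refine st_of P (G.mul_mem _ _ _ _ hb hb') (by rw [h0]; exact mul_ne_zero hne hne')
    (fun c hc => ?_)
  have h1 : star (b * b') * c * (b * b') = star b' * (star b * c * b) * b' := by
    rw [star_mul]
    simp only [mul_assoc]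
  rw [h1, hq'.2 b' hb' _ (scs_mem hb hc hb), hq.2 b hb c hc, h0]
  ring

theorem inv_val (P : PF1 G) {φ : G.Pt} {q : Q} (hq : q ∈ G.St φ) {b : B} (hb : b ∈ G.fib q)
    (hne : φ (star b * b) ≠ 0) : φ (b * star b) = φ (star b * b) := by
  have hbb : b * star b ∈ G.fib 1 :=
    mem_of_eq (mul_inv_cancel q) (G.mul_mem _ _ _ _ hb (G.star_mem _ _ hb))
  have h1 := hq.2 b hb _ hbb
  have h2 : star b * (b * star b) * b = (star b * b) * (star b * b) := by
    simp only [mul_assoc]
  rw [h2, φ.mult _ (ss_mem hb hb) _ (ss_mem hb hb)] at h1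
  exact (mul_right_cancel₀ hne h1).symm

theorem st_inv (P : PF1 G) (φ : G.Pt) (q : Q) (hq : q ∈ G.St φ) : q⁻¹ ∈ G.St φ := by
  obtain ⟨b, hb, hne⟩ := hq.1
  have h0 := inv_val P hq hb hne
  refine st_of P (G.star_mem _ _ hb) (by rw [star_star, h0]; exact hne) (fun c hc => ?_)
  rw [star_star, h0]
  have hbcb : b * c * star b ∈ G.fib 1 := mem_of_eq (by group)
    (G.mul_mem _ _ _ _ (G.mul_mem _ _ _ _ hb hc) (G.star_mem _ _ hb))
  have h1 := hq.2 b hb _ hbcb
  have h2 : star b * (b * c * star b) * b = (star b * b) * c * (star b * b) := by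
    simp only [mul_assoc]
  rw [h2, φ.mult _ (mul_mem_one (ss_mem hb hb) hc) _ (ss_mem hb hb),
    φ.mult _ (ss_mem hb hb) _ hc] at h1
  rw [← mul_right_cancel₀ hne h1]
  ring

theorem cm_symm (φ : G.Pt) (q a : Q) (h : G.Cm φ q a) : G.Cm φ a q := by
  refine ⟨h.1.symm, fun b hb b' hb' => ?_⟩
  have h1 := h.2 b' hb' b hb
  have h2 : star (b * b' - b' * b) * (b * b' - b' * b) =
      star (b' * b - b * b') * (b' * b - b * b') := by
    rw [← neg_sub (b' * b) (b * b'), star_neg, neg_mul_neg]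
  rw [h2]
  exact h1

theorem cm_one (P : PF1 G) (φ : G.Pt) (a : Q) (ha : a ∈ G.St φ) : G.Cm φ 1 a := by
  refine ⟨by rw [one_mul, mul_one], fun b hb b' hb' => ?_⟩
  have h1 := (NN.cb P ha hb hb').sub P (NN.bc P hb hb')
  have h2 : b * b' - φ b • b' - (b' * b - φ b • b') = b * b' - b' * b := by abel
  rw [h2] at h1
  exact h1

theorem cm_mul (P : PF1 G) (φ : G.Pt) (q q' a : Q) (hq : q ∈ G.St φ) (hq' : q' ∈ G.St φ)
    (ha : a ∈ G.St φ) (h : G.Cm φ q a) (h' : G.Cm φ q' a) : G.Cm φ (q * q') a := by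
  refine ⟨by rw [mul_assoc, h'.1, ← mul_assoc, h.1, mul_assoc], fun d hd a' ha' => ?_⟩
  obtain ⟨b, hb, hne⟩ := hq.1
  obtain ⟨b', hb', hne'⟩ := hq'.1
  have h0 := prod_ne P hq' hb hb' hne hne'
  have hbb := G.mul_mem _ _ _ _ hb hb'
  obtain ⟨l, hl⟩ := exists_prop P hd hbb (by rw [h0]; exact mul_ne_zero hne hne')
  have hn : d - l • (b * b') ∈ G.fib (q * q') := Submodule.sub_mem _ hd (Submodule.smul_mem _ _ hbb)
  have e1 : NN φ ((d - l • (b * b')) * a') := hl.right hn ha ha'
  have e2 : NN φ (a' * (d - l • (b * b'))) := hl.left P a'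
  have e3 : NN φ (b * (b' * a' - a' * b')) := NN.left P (h'.2 b' hb' a' ha') b
  have e4 : NN φ ((b * a' - a' * b) * b') := by
    refine NN.right (p := q * a) (h.2 b hb a' ha') ?_ hq' hb'
    exact Submodule.sub_mem _ (G.mul_mem _ _ _ _ hb ha')
      (mem_of_eq h.1.symm (G.mul_mem _ _ _ _ ha' hb))
  have e5 := ((e1.sub P e2).add P ((e3.add P e4).smul l))
  have e6 : (d - l • (b * b')) * a' - a' * (d - l • (b * b')) +
      l • (b * (b' * a' - a' * b') + (b * a' - a' * b) * b') = d * a' - a' * d := by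
    simp only [sub_mul, mul_sub, smul_mul_assoc, mul_smul_comm, mul_assoc, smul_sub, smul_add]
    abel
  rw [e6] at e5
  exact e5

theorem cm_inv (P : PF1 G) (φ : G.Pt) (q a : Q) (hq : q ∈ G.St φ) (ha : a ∈ G.St φ)
    (h : G.Cm φ q a) : G.Cm φ q⁻¹ a := by
  have hcomm : q⁻¹ * a = a * q⁻¹ := by
    rw [inv_mul_eq_iff_eq_mul, ← mul_assoc, h.1, mul_inv_cancel_right]
  refine ⟨hcomm, fun x hx a' ha' => ?_⟩
  obtain ⟨b, hb, hne⟩ := hq.1
  have hqi := st_inv P φ q hq
  have h0 := inv_val P hq hb hne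
  have hbs := G.star_mem _ _ hb
  have hbb : b * star b ∈ G.fib 1 :=
    mem_of_eq (mul_inv_cancel q) (G.mul_mem _ _ _ _ hb hbs)
  obtain ⟨l, hl⟩ := exists_prop P hx hbs (by rw [star_star, h0]; exact hne)
  have hn : x - l • star b ∈ G.fib q⁻¹ := Submodule.sub_mem _ hx (Submodule.smul_mem _ _ hbs)
  have e1 : NN φ ((x - l • star b) * a') := hl.right hn ha ha'
  have e2 : NN φ (a' * (x - l • star b)) := hl.left P a'
  -- `a' b* ≡ b* a'`
  have f1 : NN φ (star b * (b * a' - a' * b)) := NN.left P (h.2 b hb a' ha') (star b)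
  have f1m : star b * (b * a' - a' * b) ∈ G.fib a := by
    refine mem_of_eq (p := q⁻¹ * (q * a)) (by group) (G.mul_mem _ _ _ _ hbs ?_)
    exact Submodule.sub_mem _ (G.mul_mem _ _ _ _ hb ha')
      (mem_of_eq h.1.symm (G.mul_mem _ _ _ _ ha' hb))
  have f2 : NN φ (star b * (b * a' - a' * b) * star b) := f1.right f1m hqi hbs
  have f3 : NN φ ((star b * b * a' - φ (star b * b) • a') * star b) := by
    refine NN.right (p := a) (NN.cb P ha (ss_mem hb hb) ha') ?_ hqi hbs
    exact Submodule.sub_mem _ (mem_of_eq (one_mul a) (G.mul_mem _ _ _ _ (ss_mem hb hb) ha'))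
      (Submodule.smul_mem _ _ ha')
  have f4 : NN φ (star b * a' * (b * star b) - φ (b * star b) • (star b * a')) :=
    NN.bc P hbb (G.mul_mem _ _ _ _ hbs ha')
  rw [h0] at f4
  have f5 := ((f2.sub P f3).add P f4)
  have f6 : star b * (b * a' - a' * b) * star b -
      (star b * b * a' - φ (star b * b) • a') * star b +
      (star b * a' * (b * star b) - φ (star b * b) • (star b * a')) =
      φ (star b * b) • (a' * star b - star b * a') := by
    simp only [sub_mul, mul_sub, smul_mul_assoc, mul_smul_comm, mul_assoc, smul_sub, smul_add]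
    abel
  rw [f6] at f5
  have f7 := NN.of_smul hne f5
  have e5 := ((e1.sub P e2).sub P (f7.smul l))
  have e6 : (x - l • star b) * a' - a' * (x - l • star b) - l • (a' * star b - star b * a') =
      x * a' - a' * x := by
    simp only [sub_mul, mul_sub, smul_mul_assoc, mul_smul_comm, mul_assoc, smul_sub, smul_add]
    abel
  rw [e6] at e5
  exact e5

theorem st_conj (P : PF1 G) (φ ψ : G.Pt) (q : Q) (b : B) (hb : b ∈ G.fib q)
    (hne : φ (star b * b) ≠ 0) (hψ : ∀ y, ψ y * φ (star b * b) = φ (star b * y * b))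
    (n : Q) (hn : n ∈ G.St φ) : q * n * q⁻¹ ∈ G.St ψ := by
  obtain ⟨d, hd, hdne⟩ := hn.1
  have hbs := G.star_mem _ _ hb
  have hx : b * d * star b ∈ G.fib (q * n * q⁻¹) :=
    G.mul_mem _ _ _ _ (G.mul_mem _ _ _ _ hb hd) hbs
  have hbb := ss_mem hb hb
  have h1 : ∀ c ∈ G.fib 1, ψ (star (b * d * star b) * c * (b * d * star b)) =
      ψ c * (φ (star b * b) * φ (star b * b) * φ (star d * d)) := by
    intro c hc
    have hbcb := scs_mem hb hc hb
    have hdd := scs_mem hd hbcb hd
    have e1 := hψ (star (b * d * star b) * c * (b * d * star b))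
    have e2 : star b * (star (b * d * star b) * c * (b * d * star b)) * b =
        (star b * b) * (star d * (star b * c * b) * d) * (star b * b) := by
      rw [star_mul, star_mul, star_star]
      simp only [mul_assoc]
    rw [e2, φ.mult _ (mul_mem_one hbb hdd) _ hbb, φ.mult _ hbb _ hdd, hn.2 d hd _ hbcb,
      ← hψ c] at e1
    refine mul_right_cancel₀ hne ?_
    rw [e1]
    ring
  have h2 : ψ (star (b * d * star b) * (b * d * star b)) =
      φ (star b * b) * φ (star b * b) * φ (star d * d) := by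
    have hdd := scs_mem hd hbb hd
    have e1 := hψ (star (b * d * star b) * (b * d * star b))
    have e2 : star b * (star (b * d * star b) * (b * d * star b)) * b =
        (star b * b) * (star d * (star b * b) * d) * (star b * b) := by
      rw [star_mul, star_mul, star_star]
      simp only [mul_assoc]
    rw [e2, φ.mult _ (mul_mem_one hbb hdd) _ hbb, φ.mult _ hbb _ hdd, hn.2 d hd _ hbb] at e1
    refine mul_right_cancel₀ hne ?_
    rw [e1]
    ring
  refine st_of P hx ?_ (fun c hc => ?_)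
  · rw [h2]
    exact mul_ne_zero (mul_ne_zero hne hne) hdne
  · rw [h1 c hc, h2]

theorem nn_conj {φ ψ : G.Pt} {b : B}
    (hne : φ (star b * b) ≠ 0) (hψ : ∀ y, ψ y * φ (star b * b) = φ (star b * y * b)) (y : B) :
    NN ψ y ↔ NN φ (y * b) := by
  unfold NN
  have h1 := hψ (star y * y)
  have h2 : star (y * b) * (y * b) = star b * (star y * y) * b := by
    rw [star_mul]
    simp only [mul_assoc]
  rw [h2, ← h1]
  constructor
  · intro h
    rw [h, zero_mul]
  · intro h
    exact (mul_eq_zero.1 h).resolve_right hne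

theorem cm_conj (P : PF1 G) (φ ψ : G.Pt) (q : Q) (b : B) (hb : b ∈ G.fib q)
    (hne : φ (star b * b) ≠ 0) (hψ : ∀ y, ψ y * φ (star b * b) = φ (star b * y * b))
    (n a : Q) (hn : n ∈ G.St φ) (ha : a ∈ G.St φ) (h : G.Cm φ n a) :
    G.Cm ψ (q * n * q⁻¹) (q * a * q⁻¹) := by
  have hcomm : q * n * q⁻¹ * (q * a * q⁻¹) = q * a * q⁻¹ * (q * n * q⁻¹) := by
    have h1 : q * n * q⁻¹ * (q * a * q⁻¹) = q * (n * a) * q⁻¹ := by group
    have h2 : q * a * q⁻¹ * (q * n * q⁻¹) = q * (a * n) * q⁻¹ := by group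
    rw [h1, h2, h.1]
  refine ⟨hcomm, fun d hd a' ha' => ?_⟩
  have hnψ := st_conj P φ ψ q b hb hne hψ n hn
  have haψ := st_conj P φ ψ q b hb hne hψ a ha
  have hbs := G.star_mem _ _ hb
  have hs : b * star b ∈ G.fib 1 := mem_of_eq (mul_inv_cancel q) (G.mul_mem _ _ _ _ hb hbs)
  have hψs : ψ (b * star b) = φ (star b * b) := by
    have e1 := hψ (b * star b)
    have e2 : star b * (b * star b) * b = (star b * b) * (star b * b) := by
      simp only [mul_assoc]
    rw [e2, φ.mult _ (ss_mem hb hb) _ (ss_mem hb hb)] at e1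
    exact mul_right_cancel₀ hne e1
  have hd' : star b * d * b ∈ G.fib n := mem_of_eq (by group)
    (G.mul_mem _ _ _ _ (G.mul_mem _ _ _ _ hbs hd) hb)
  have ha'' : star b * a' * b ∈ G.fib a := mem_of_eq (by group)
    (G.mul_mem _ _ _ _ (G.mul_mem _ _ _ _ hbs ha') hb)
  have e0 : NN φ (star b * d * b * (star b * a' * b) - star b * a' * b * (star b * d * b)) :=
    h.2 _ hd' _ ha''
  have e1 : NN φ ((b * star b * a' - ψ (b * star b) • a') * b) :=
    (nn_conj hne hψ _).1 (NN.cb P haψ hs ha')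
  have e2 : NN φ ((b * star b * d - ψ (b * star b) • d) * b) :=
    (nn_conj hne hψ _).1 (NN.cb P hnψ hs hd)
  have e3 := (e0.sub P (e1.left P (star b * d))).add P (e2.left P (star b * a'))
  have e4 : star b * d * b * (star b * a' * b) - star b * a' * b * (star b * d * b) -
      star b * d * ((b * star b * a' - ψ (b * star b) • a') * b) +
      star b * a' * ((b * star b * d - ψ (b * star b) • d) * b) =
      ψ (b * star b) • (star b * (d * a' - a' * d) * b) := by
    simp only [sub_mul, mul_sub, smul_mul_assoc, mul_smul_comm, mul_assoc, smul_sub, smul_add]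
    abel
  rw [e4, hψs] at e3
  have e5 := (NN.of_smul hne e3).left P b
  have e6 : NN ψ (b * star b * (d * a' - a' * d)) := by
    rw [nn_conj hne hψ]
    have : b * (star b * (d * a' - a' * d) * b) = b * star b * (d * a' - a' * d) * b := by
      simp only [mul_assoc]
    rwa [this] at e5
  have hy : d * a' - a' * d ∈ G.fib (q * n * q⁻¹ * (q * a * q⁻¹)) :=
    Submodule.sub_mem _ (G.mul_mem _ _ _ _ hd ha')
      (mem_of_eq hcomm.symm (G.mul_mem _ _ _ _ ha' hd))
  have e7 : NN ψ (b * star b * (d * a' - a' * d) - ψ (b * star b) • (d * a' - a' * d)) :=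
    NN.cb P (st_mul P ψ _ _ hnψ haψ) hs hy
  have e8 := e6.sub P e7
  rw [sub_sub_cancel, hψs] at e8
  exact NN.of_smul hne e8

/-- PF: the pointwise facts. -/
theorem pf (h1 : S_PF1) : S_PF := by
  intro Q _ B _ G hC
  have P := h1 Q B G hC
  exact
    { herm := P.herm
      cs := P.cs
      mulL := P.mulL
      mulR := P.mulR
      oned := P.oned
      move := P.move
      st_one := fun φ => st_one P φ
      st_mul := fun φ q q' hq hq' => st_mul P φ q q' hq hq'
      st_inv := fun φ q hq => st_inv P φ q hq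
      cm_symm := fun φ q a h => cm_symm φ q a h
      cm_one := fun φ a ha => cm_one P φ a ha
      cm_mul := fun φ q q' a hq hq' ha h h' => cm_mul P φ q q' a hq hq' ha h h'
      cm_inv := fun φ q a hq ha h => cm_inv P φ q a hq ha h
      st_conj := fun φ ψ q b hb hne hψ n hn => st_conj P φ ψ q b hb hne hψ n hn
      cm_conj := fun φ ψ q b hb hne hψ n a hn ha h => cm_conj P φ ψ q b hb hne hψ n a hn ha h }

end Pool.Agent.Helper48.Uct
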